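import Pool.Agent.Helper96.BC.St

set_option autoImplicit false

namespace Pool.Agent.Helper70.BC

open NumberField IsDedekindDomain Polynomial Filter Topology
open Pool.Agent.Helper96.BC Pool.Agent.Helper95.TT
open scoped Classical TensorProduct

theorem hC11a : StA10 → StC11a := by
  intro hA K _ _ b R hsum G hG hGe
  have hq : ∀ w : Pr K, (2 : ℝ) ≤ (q w : ℝ) := by
    intro w
    have h0 : q w ≠ 0 := by
      intro h
      exact w.ne_bot (Ideal.absNorm_eq_zero_iff.mp h)
    have h1 : q w ≠ 1 := by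
      intro h
      exact w.isPrime.ne_top (Ideal.absNorm_eq_one_iff.mp h)
    have h2 : 2 ≤ q w := by omega
    exact_mod_cast h2
  have e1 : ∀ s : ℝ, (fun w : Pr K => (if w ∈ R then 0 else b w) * Real.log (q w : ℝ) *
      (q w : ℝ) ^ (-s)) = (fun w : Pr K =>
      if w ∈ R then 0 else b w * Real.log (q w) * (q w : ℝ) ^ (-s)) := by
    intro s
    funext w
    by_cases h : w ∈ R
    · simp [h]
    · simp [h]
  have e2 : ∀ s : ℝ, (fun w : Pr K => (if w ∈ R then 0 else b w) * (q w : ℝ) ^ (-s)) =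
      (fun w : Pr K => if w ∈ R then 0 else b w * (q w : ℝ) ^ (-s)) := by
    intro s
    funext w
    by_cases h : w ∈ R
    · simp [h]
    · simp [h]
  obtain ⟨n, hn⟩ := hA (Pr K) (fun w => if w ∈ R then 0 else b w) (fun w => (q w : ℝ)) hq
    (fun s hs => by
      rw [e1 s]
      exact hsum s hs) G hG (by
      filter_upwards [hGe] with s hs
      rw [hs]
      rw [e2 s])
  refine ⟨n, ?_⟩
  refine hn.congr (fun s => ?_)
  unfold FK
  rw [e1 s]

theorem hC11b : StC11b := by
  intro ι _ x ρ A hx hA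
  have h1 : Tendsto (fun s => ∑ i, x i s ^ 2) (𝓝[>] 2) (𝓝 (∑ i, ((ρ i : ℤ) : ℝ) ^ 2)) :=
    tendsto_finsetSum _ (fun i _ => (hx i).pow 2)
  have h2 : ∑ i, ((ρ i : ℤ) : ℝ) ^ 2 ≤ A := by
    apply le_of_forall_pos_le_add
    intro ε hε
    exact le_of_tendsto h1 (hA ε hε)
  refine le_trans ?_ h2
  rw [Finset.card_filter]
  push_cast
  apply Finset.sum_le_sum
  intro i _
  by_cases h : ρ i = 0
  · simp [h]
  · rw [if_pos h]
    have h3 : (1 : ℤ) ≤ (ρ i) ^ 2 := by
      have := sq_pos_of_ne_zero h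
      omega
    exact_mod_cast h3

end Pool.Agent.Helper70.BC
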