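import Pool.Agent.Helper96.BC.St

set_option autoImplicit false

namespace Pool.Agent.Helper70.BC

open NumberField IsDedekindDomain Polynomial Filter Topology
open Pool.Agent.Helper96.BC Pool.Agent.Helper95.TT
open scoped Classical TensorProduct

private theorem bij_aux (k K : Type) [Field k] [NumberField k] [Field K] [NumberField K] [Algebra k K]
    (w : Pr K) (v : Pr k) (h : Deg1 w v) :
    ∃ e : (𝓞 k ⧸ v.asIdeal) ≃+* (𝓞 K ⧸ w.asIdeal), ∀ a : 𝓞 k,
      e (Ideal.Quotient.mk v.asIdeal a) = Ideal.Quotient.mk w.asIdeal (algebraMap (𝓞 k) (𝓞 K) a) := by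
  have h1 : w.asIdeal.comap (algebraMap (𝓞 k) (𝓞 K)) = v.asIdeal := h.1
  have hinj := Ideal.quotientMap_injective' (J := v.asIdeal) (I := w.asIdeal)
    (f := algebraMap (𝓞 k) (𝓞 K)) (H := h1.ge) h1.le
  have hc : Nat.card (𝓞 K ⧸ w.asIdeal) = Nat.card (𝓞 k ⧸ v.asIdeal) := by
    have := h.2
    unfold q at this
    rw [Ideal.absNorm_apply, Ideal.absNorm_apply, Submodule.cardQuot_apply,
      Submodule.cardQuot_apply] at this
    exact this
  have hfin : Finite (𝓞 K ⧸ w.asIdeal) := by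
    apply Ideal.absNorm_ne_zero_iff _ |>.mp
    intro h0
    exact w.ne_bot (Ideal.absNorm_eq_zero_iff.mp h0)
  have hbij := Function.Injective.bijective_of_nat_card_le hinj hc.le
  refine ⟨RingEquiv.ofBijective (Ideal.quotientMap w.asIdeal (algebraMap (𝓞 k) (𝓞 K)) h1.ge) hbij,
    fun a => ?_⟩
  rfl

theorem hC9 : StC9 := by
  intro k K _ _ _ _ _ w v hwv
  obtain ⟨e, he⟩ := bij_aux k K w v hwv
  have hab : w.asIdeal.comap (algebraMap (𝓞 k) (𝓞 K)) = v.asIdeal := hwv.1
  have hmem : ∀ a : 𝓞 k, algebraMap (𝓞 k) (𝓞 K) a ∈ w.asIdeal ↔ a ∈ v.asIdeal := by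
    intro a
    rw [← hab, Ideal.mem_comap]
  have hinj : Function.Injective (algebraMap (𝓞 k) (𝓞 K)) := by
    exact FaithfulSMul.algebraMap_injective (𝓞 k) (𝓞 K)
  constructor
  · intro D f
    have hpts : pts (algebraMap (𝓞 k) (𝓞 K) D) (f.map (algebraMap (𝓞 k) (𝓞 K))) w = pts D f v := by
      unfold pts
      have hev : ∀ x : 𝓞 k ⧸ v.asIdeal,
          ((f.map (algebraMap (𝓞 k) (𝓞 K))).map (Ideal.Quotient.mk w.asIdeal)).eval (e x) =
            e ((f.map (Ideal.Quotient.mk v.asIdeal)).eval x) := by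
        intro x
        have h1 : (f.map (algebraMap (𝓞 k) (𝓞 K))).map (Ideal.Quotient.mk w.asIdeal) =
            (f.map (Ideal.Quotient.mk v.asIdeal)).map (e : (𝓞 k ⧸ v.asIdeal) →+* (𝓞 K ⧸ w.asIdeal)) := by
          rw [Polynomial.map_map, Polynomial.map_map]
          congr 1
          ext a
          simp [he a]
        rw [h1, Polynomial.eval_map]
        exact Polynomial.eval₂_at_apply (e : (𝓞 k ⧸ v.asIdeal) →+* (𝓞 K ⧸ w.asIdeal)) x
      have c1 : Nat.card {z : (𝓞 K ⧸ w.asIdeal) × (𝓞 K ⧸ w.asIdeal) //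
            z.2 ^ 2 = Ideal.Quotient.mk w.asIdeal (algebraMap (𝓞 k) (𝓞 K) D) *
              ((f.map (algebraMap (𝓞 k) (𝓞 K))).map (Ideal.Quotient.mk w.asIdeal)).eval z.1} =
          Nat.card {z : (𝓞 k ⧸ v.asIdeal) × (𝓞 k ⧸ v.asIdeal) //
            z.2 ^ 2 = Ideal.Quotient.mk v.asIdeal D * (f.map (Ideal.Quotient.mk v.asIdeal)).eval z.1} := by
        refine (Nat.card_congr (Equiv.subtypeEquiv (Equiv.prodCongr e.toEquiv e.toEquiv) ?_)).symm
        rintro ⟨x, y⟩
        simp only [Equiv.prodCongr_apply, Prod.map_apply, RingEquiv.toEquiv_eq_coe, EquivLike.coe_coe]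
        rw [hev x, ← he D, ← map_mul, ← map_pow]
        exact e.injective.eq_iff.symm
      have c2 : (f.map (algebraMap (𝓞 k) (𝓞 K))).natDegree = f.natDegree :=
        Polynomial.natDegree_map_eq_of_injective hinj f
      have c3 : (f.map (algebraMap (𝓞 k) (𝓞 K))).leadingCoeff =
          algebraMap (𝓞 k) (𝓞 K) f.leadingCoeff :=
        Polynomial.leadingCoeff_map_of_injective hinj f
      have c4 : Nat.card {z : 𝓞 K ⧸ w.asIdeal // z ^ 2 = Ideal.Quotient.mk w.asIdeal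
            (algebraMap (𝓞 k) (𝓞 K) D * (f.map (algebraMap (𝓞 k) (𝓞 K))).leadingCoeff)} =
          Nat.card {z : 𝓞 k ⧸ v.asIdeal // z ^ 2 = Ideal.Quotient.mk v.asIdeal
            (D * f.leadingCoeff)} := by
        refine (Nat.card_congr (Equiv.subtypeEquiv e.toEquiv ?_)).symm
        intro x
        simp only [RingEquiv.toEquiv_eq_coe, EquivLike.coe_coe]
        rw [c3, ← map_mul, ← he, ← map_pow]
        exact e.injective.eq_iff.symm
      rw [c1, c2, c4]
    unfold tr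
    rw [hpts, hwv.2]
  · intro D
    have h1 : (2 * algebraMap (𝓞 k) (𝓞 K) D ∈ w.asIdeal) ↔ (2 * D ∈ v.asIdeal) := by
      rw [← hmem (2 * D), map_mul, map_ofNat]
    have h2 : (∃ a : 𝓞 K, a ^ 2 - algebraMap (𝓞 k) (𝓞 K) D ∈ w.asIdeal) ↔
        (∃ a : 𝓞 k, a ^ 2 - D ∈ v.asIdeal) := by
      constructor
      · rintro ⟨a, ha⟩
        obtain ⟨x, hx⟩ := e.surjective (Ideal.Quotient.mk w.asIdeal a)
        obtain ⟨b, rfl⟩ := Ideal.Quotient.mk_surjective x
        rw [he b] at hx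
        refine ⟨b, ?_⟩
        rw [← hmem, ← Ideal.Quotient.eq_zero_iff_mem, map_sub, map_pow, map_sub, map_pow, hx]
        rw [← Ideal.Quotient.eq_zero_iff_mem, map_sub, map_pow] at ha
        exact ha
      · rintro ⟨a, ha⟩
        refine ⟨algebraMap (𝓞 k) (𝓞 K) a, ?_⟩
        rw [← map_pow, ← map_sub, hmem]
        exact ha
    unfold chi
    simp only [h1, h2]

end Pool.Agent.Helper70.BC
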